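import Mathlib
import Pool.Agent.H10.TuplesBasic

set_option autoImplicit false

namespace Pool.Agent.Results.MP_8923e7_nt.GapLaw

/-- A finite set of naturals is admissible: for every prime `p` its residues modulo `p` miss a
class, that is, some translate contains no multiple of `p`. -/
def Admissible (H : Finset ℕ) : Prop := ∀ p : ℕ, p.Prime → ∃ c : ℕ, ∀ h ∈ H, ¬ p ∣ c + h

/-- Gap law: the tuples conjecture for all admissible sets of `r` elements is equivalent to the
existence of ONE size `k` such that every admissible set of `k` elements has ONE translate in which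
fewer than `k / r` (rounded down) of the numbers are not prime. -/
theorem result (r : ℕ) (hr : 1 ≤ r) :
    (∀ H : Finset ℕ, H.card = r → Admissible H → {N : ℕ | ∀ h ∈ H, (N + h).Prime}.Infinite) ↔
    (∃ k : ℕ, ∀ H : Finset ℕ, H.card = k → Admissible H →
      ∃ N : ℕ, (H.filter (fun h => ¬ (N + h).Prime)).card < k / r) := by
  constructor
  · intro h
    refine ⟨r, fun H hH hadm => ?_⟩
    obtain ⟨N, hN⟩ := (h H hH hadm).nonempty
    refine ⟨N, ?_⟩
    rw [Nat.div_self (by omega)]
    have : H.filter (fun h => ¬ (N + h).Prime) = ∅ := by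
      rw [Finset.filter_eq_empty_iff]
      intro x hx
      simpa using hN x hx
    rw [this]
    simp
  · rintro ⟨k, hk⟩ H0 hcard hadm
    exact Pool.Agent.H10.Tuples.gap r hr k hk H0 hcard hadm

end Pool.Agent.Results.MP_8923e7_nt.GapLaw
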