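import Mathlib
import Pool.Agent.H10.KTC2

set_option autoImplicit false

namespace Pool.Agent.H10.Variants.SelfImprovement

/-- The prime k-tuples conjecture, word for word as in the frozen statement S17679. -/
def PrimeTuplesConjecture : Prop :=
  ∀ (k : ℕ) (a : Fin k → ℕ),
      (∀ p : ℕ, p.Prime → ∃ r : ℕ, ¬ p ∣ r ∧ ∀ i : Fin k, ¬ p ∣ r + a i) →
      Set.Infinite {N : ℕ | N.Prime ∧ ∀ i : Fin k, (N + a i).Prime}

/-- The strengthened form: an admissible finite set `H` of integers, a disjoint finite set `W` of
integers, a residue class `a` modulo `M` compatible with `H`, a compact group `G` with an element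
`g` all of whose positive powers generate dense subgroups, and a nonempty open set `U` of `G`.
Then there are infinitely many `N` in the residue class with all `N + h` prime, all `N + w`
composite and `g ^ N` in `U`. -/
def StrongPrimeTuples : Prop :=
  ∀ (H W : Finset ℤ), (∀ p : ℕ, p.Prime → ∃ c : ℤ, ∀ h ∈ H, ¬ (p : ℤ) ∣ c + h) → Disjoint H W →
  ∀ (M : ℕ), 1 ≤ M → ∀ a : ℤ, (∀ h ∈ H, IsCoprime (a + h) (M : ℤ)) →
  ∀ (G : Type) [Group G] [TopologicalSpace G] [IsTopologicalGroup G] [CompactSpace G] (g : G),
    (∀ m : ℕ, 0 < m → Dense (Set.range fun n : ℤ => g ^ ((m : ℤ) * n))) →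
  ∀ U : Set G, IsOpen U → U.Nonempty →
    Set.Infinite {N : ℕ | (N : ℤ) ≡ a [ZMOD M] ∧ (∀ h ∈ H, Nat.Prime ((N : ℤ) + h).toNat) ∧
      (∀ w ∈ W, 1 < (N : ℤ) + w ∧ ¬ Nat.Prime ((N : ℤ) + w).toNat) ∧ g ^ N ∈ U}

/-- Self-improvement of the prime k-tuples conjecture. -/
theorem result : PrimeTuplesConjecture ↔ StrongPrimeTuples := by
  classical
  constructor
  · intro hK H W hadm hdis M hM a hcop G _ _ _ _ g hg U hU hUne
    -- reduce to nonempty H
    obtain ⟨H', hHH', hne, hadm', hdis', hcop'⟩ : ∃ H' : Finset ℤ, H ⊆ H' ∧ H'.Nonempty ∧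
        (∀ p : ℕ, p.Prime → ∃ c : ℤ, ∀ h ∈ H', ¬ (p : ℤ) ∣ c + h) ∧ Disjoint H' W ∧
        (∀ h ∈ H', IsCoprime (a + h) (M : ℤ)) := by
      rcases H.eq_empty_or_nonempty with hH | hH
      · -- choose a point outside W
        set S : ℕ := ∑ w ∈ W, (w.natAbs + a.natAbs + 1) with hS
        set h0 : ℤ := 1 - a + M * S with hh0
        have hM' : (1 : ℤ) ≤ M := by exact_mod_cast hM
        have hnot : h0 ∉ W := by
          intro hmem
          have h1 : h0.natAbs + a.natAbs + 1 ≤ S :=
            Finset.single_le_sum (f := fun w : ℤ => w.natAbs + a.natAbs + 1)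
              (fun i _ => Nat.zero_le _) hmem
          have h2 : (S : ℤ) ≤ M * S := by
            have : (0 : ℤ) ≤ S := by positivity
            nlinarith
          have h3 : ((h0.natAbs + a.natAbs + 1 : ℕ) : ℤ) ≤ S := by exact_mod_cast h1
          push_cast at h3
          have h4 := le_abs_self h0
          have h5 := neg_abs_le a
          have h6 := le_abs_self a
          have h7 : h0 = 1 - a + M * S := hh0
          linarith
        refine ⟨{h0}, by simp [hH], Finset.singleton_nonempty _, ?_, ?_, ?_⟩
        · intro p hp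
          refine ⟨1 - h0, fun h hh => ?_⟩
          rw [Finset.mem_singleton] at hh
          subst hh
          intro hdiv
          have h1 : 1 - h0 + h0 = 1 := by ring
          rw [h1] at hdiv
          have h2 : p ∣ 1 := by exact_mod_cast hdiv
          exact hp.one_lt.ne' (Nat.dvd_one.mp h2)
        · rwa [Finset.disjoint_singleton_left]
        · intro h hh
          rw [Finset.mem_singleton] at hh
          subst hh
          refine ⟨1, -S, ?_⟩
          rw [hh0]; ring
      · exact ⟨H, subset_rfl, hH, hadm, hdis, hcop⟩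
    rw [Set.infinite_iff_exists_gt] 
    intro B
    obtain ⟨N, h1, h2, h3, h4, h5⟩ := Pool.Agent.H10.KTC.main_window hK g hg U hU hUne H' hne hadm' W
      hdis' M hM a hcop' B
    have hN0 : 0 ≤ N := by
      have : (0 : ℤ) ≤ B := by positivity
      linarith
    have hNeq : ((N.toNat : ℕ) : ℤ) = N := Int.toNat_of_nonneg hN0
    refine ⟨N.toNat, ⟨?_, ?_, ?_, ?_⟩, ?_⟩
    · rw [hNeq]
      exact (Int.modEq_iff_dvd.mpr h2).symm
    · intro h hh
      obtain ⟨q, hq, hqe⟩ := h3 h (hHH' hh)
      rw [hNeq, hqe]
      simpa using hq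
    · intro w hw
      obtain ⟨d, hd1, hd2, hd3⟩ := h5 w hw
      rw [hNeq]
      refine ⟨by linarith, fun hp => ?_⟩
      have hpos : 0 ≤ N + w := by linarith
      have hcast : (((N + w).toNat : ℕ) : ℤ) = N + w := Int.toNat_of_nonneg hpos
      have hdn : d.toNat ∣ (N + w).toNat := by
        have : ((d.toNat : ℕ) : ℤ) ∣ (((N + w).toNat : ℕ) : ℤ) := by
          rw [hcast, Int.toNat_of_nonneg (by linarith)]
          exact hd3
        exact_mod_cast this
      rcases (Nat.dvd_prime hp).mp hdn with h | h
      · have : d = 1 := by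
          have h' := Int.toNat_of_nonneg (show (0 : ℤ) ≤ d by linarith)
          rw [h] at h'
          exact_mod_cast h'.symm
        linarith
      · have h' := Int.toNat_of_nonneg (show (0 : ℤ) ≤ d by linarith)
        rw [h, hcast] at h'
        linarith
    · have : g ^ N.toNat = g ^ N := by
        conv_rhs => rw [← hNeq]
        rw [zpow_natCast]
      rw [this]
      exact h4
    · have : (B : ℤ) < (N.toNat : ℤ) := by rw [hNeq]; exact h1
      exact_mod_cast this
  · intro hS k a hadm
    have h := hS (insert 0 (Finset.univ.image (fun i : Fin k => (a i : ℤ)))) ∅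
      (by
        intro p hp
        obtain ⟨r, hr1, hr2⟩ := hadm p hp
        refine ⟨r, fun h hh => ?_⟩
        rcases Finset.mem_insert.mp hh with rfl | hh
        · rw [add_zero]
          intro hdiv
          exact hr1 (by exact_mod_cast hdiv)
        · obtain ⟨i, _, rfl⟩ := Finset.mem_image.mp hh
          intro hdiv
          exact hr2 i (by exact_mod_cast hdiv))
      (Finset.disjoint_empty_right _) 1 le_rfl 0 (fun h _ => by simp [isCoprime_one_right])
      Unit (1 : Unit) (fun m hm => by
        intro x
        apply subset_closure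
        exact ⟨0, Subsingleton.elim _ _⟩) Set.univ isOpen_univ Set.univ_nonempty
    refine h.mono ?_
    rintro N ⟨_, hN, _⟩
    refine ⟨?_, fun i => ?_⟩
    · have := hN 0 (Finset.mem_insert_self _ _)
      simpa using this
    · have := hN (a i) (Finset.mem_insert_of_mem (Finset.mem_image_of_mem _ (Finset.mem_univ i)))
      have h2 : ((N : ℤ) + (a i : ℤ)).toNat = N + a i := by
        rw [← Nat.cast_add, Int.toNat_natCast]
      rwa [h2] at this

end Pool.Agent.H10.Variants.SelfImprovement
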